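import Pool.Agent.Helper97.FS.Stmts

set_option autoImplicit false

namespace Pool.Agent.Helper97.FS

open Finset MeasureTheory Filter Topology
open Pool.Agent.Helper97.Sub

variable {d : ℕ}

open Classical in
theorem ue1_occ_sum (W V : List (Fin d)) :
    occ W V = ∑ i ∈ range V.length, if W <+: V.drop i then 1 else 0 := by
  unfold occ
  rw [card_filter]

theorem ue1_occ_le (W V : List (Fin d)) : occ W V ≤ V.length := by
  classical
  unfold occ
  exact (card_filter_le _ _).trans (by simp)

theorem ue1_card (u w : ℕ) : (∑ i ∈ range u, if u < i + w then 1 else 0) ≤ w := by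
  rw [← card_filter]
  have h : (range u).filter (fun i => u < i + w) ⊆ Ico (u + 1 - w) u := by
    intro i hi
    simp only [mem_filter, mem_range, mem_Ico] at hi ⊢
    omega
  refine (card_le_card h).trans ?_
  rw [Nat.card_Ico]
  omega

theorem ue1_append (W U V : List (Fin d)) :
    occ W U + occ W V ≤ occ W (U ++ V) ∧ occ W (U ++ V) ≤ occ W U + occ W V + W.length := by
  classical
  rw [ue1_occ_sum W (U ++ V), List.length_append, sum_range_add]
  have h2 : ∑ x ∈ range V.length, (if W <+: (U ++ V).drop (U.length + x) then 1 else 0) =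
      occ W V := by
    rw [ue1_occ_sum]
    refine sum_congr rfl fun x _ => ?_
    have h0 : (U ++ V).drop (U.length + x) = V.drop x := by
      rw [List.drop_append, List.drop_eq_nil_of_le (Nat.le_add_right _ _), List.nil_append,
        Nat.add_sub_cancel_left]
    rw [h0]
  rw [h2]
  have h3 : ∀ i ∈ range U.length, (U ++ V).drop i = U.drop i ++ V := by
    intro i hi
    rw [mem_range] at hi
    exact List.drop_append_of_le_length hi.le
  have h4 : occ W U ≤ ∑ x ∈ range U.length, (if W <+: (U ++ V).drop x then 1 else 0) := by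
    rw [ue1_occ_sum]
    refine sum_le_sum fun i hi => ?_
    rw [h3 i hi]
    by_cases h : W <+: U.drop i
    · rw [if_pos h, if_pos (h.trans (List.prefix_append _ _))]
    · rw [if_neg h]; exact Nat.zero_le _
  have h5 : ∑ x ∈ range U.length, (if W <+: (U ++ V).drop x then 1 else 0) ≤
      occ W U + W.length := by
    refine le_trans ?_ (Nat.add_le_add_left (ue1_card U.length W.length) _)
    rw [ue1_occ_sum, ← sum_add_distrib]
    refine sum_le_sum fun i hi => ?_
    rw [h3 i hi]
    rw [mem_range] at hi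
    by_cases h : W <+: U.drop i ++ V
    · by_cases h' : U.length < i + W.length
      · rw [if_pos h, if_pos h']; exact Nat.le_add_left _ _
      · have h6 : W <+: U.drop i := by
          refine List.prefix_of_prefix_length_le h (List.prefix_append _ _) ?_
          rw [List.length_drop]; omega
        rw [if_pos h, if_pos h6]; exact Nat.le_add_right _ _
    · rw [if_neg h]; exact Nat.zero_le _
  omega

theorem ue1_flat (W : List (Fin d)) (τ : Fin d → List (Fin d)) (A B : ℝ)
    (hA : ∀ c, A * ((τ c).length : ℝ) ≤ (occ W (τ c) : ℝ))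
    (hB : ∀ c, (occ W (τ c) : ℝ) + W.length ≤ B * ((τ c).length : ℝ)) (V : List (Fin d)) :
    A * ((V.flatMap τ).length : ℝ) ≤ (occ W (V.flatMap τ) : ℝ) ∧
      (occ W (V.flatMap τ) : ℝ) ≤ B * ((V.flatMap τ).length : ℝ) := by
  induction V with
  | nil => simp [occ]
  | cons c V ih =>
    rw [List.flatMap_cons, List.length_append]
    obtain ⟨h1, h2⟩ := ue1_append W (τ c) (V.flatMap τ)
    have h1' : ((occ W (τ c) : ℕ) : ℝ) + occ W (V.flatMap τ) ≤ occ W (τ c ++ V.flatMap τ) := by
      exact_mod_cast h1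
    have h2' : ((occ W (τ c ++ V.flatMap τ) : ℕ) : ℝ) ≤
        (occ W (τ c) : ℝ) + occ W (V.flatMap τ) + W.length := by
      exact_mod_cast h2
    push_cast
    have h3 := hA c
    have h4 := hB c
    constructor
    · rw [mul_add]; linarith [ih.1]
    · rw [mul_add]; linarith [ih.2]

theorem ue1_flat_sum (W : List (Fin d)) (τ : Fin d → List (Fin d)) (V : List (Fin d)) :
    (∑ e, V.count e * occ W (τ e)) ≤ occ W (V.flatMap τ) ∧
      occ W (V.flatMap τ) ≤ (∑ e, V.count e * occ W (τ e)) + W.length * V.length := by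
  induction V with
  | nil => simp [occ]
  | cons c V ih =>
    have h0 : (∑ e, (c :: V).count e * occ W (τ e)) =
        (∑ e, V.count e * occ W (τ e)) + occ W (τ c) := by
      have : ∀ e, (c :: V).count e * occ W (τ e) =
          V.count e * occ W (τ e) + (if e = c then occ W (τ e) else 0) := by
        intro e
        rw [List.count_cons]
        by_cases h : e = c
        · subst h; simp; ring
        · rw [if_neg h, if_neg (by simpa using Ne.symm h)]; ring
      rw [sum_congr rfl fun e _ => this e, sum_add_distrib, sum_ite_eq' univ c]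
      simp
    rw [List.flatMap_cons, h0, List.length_cons, Nat.mul_add, mul_one]
    obtain ⟨h1, h2⟩ := ue1_append W (τ c) (V.flatMap τ)
    omega

/-- words of the language have the frequencies of the tiles -/
theorem ue1_word {σ : Fin d → List (Fin d)} (hσ : ∀ a, σ a ≠ []) (W : List (Fin d)) (N Mx : ℕ)
    (hM : ∀ c, (T σ N c).length ≤ Mx) (A B : ℝ)
    (hA : ∀ c, A * ((T σ N c).length : ℝ) ≤ (occ W (T σ N c) : ℝ))
    (hB : ∀ c, (occ W (T σ N c) : ℝ) + W.length ≤ B * ((T σ N c).length : ℝ))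
    (U : List (Fin d)) (hU : ∃ n a, U <:+: T σ n a) :
    A * U.length - (2 * Mx * (|A| + |B| + 1) + 2 * W.length) ≤ (occ W U : ℝ) ∧
      (occ W U : ℝ) ≤ B * U.length + (2 * Mx * (|A| + |B| + 1) + 2 * W.length) := by
  have hA1 := neg_abs_le A
  have hA2 := le_abs_self A
  have hA3 := abs_nonneg A
  have hB1 := neg_abs_le B
  have hB2 := le_abs_self B
  have hB3 := abs_nonneg B
  have hMx0 : (0 : ℝ) ≤ Mx := Nat.cast_nonneg _
  have hW0 : (0 : ℝ) ≤ W.length := Nat.cast_nonneg _
  have short : U.length ≤ Mx →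
      A * U.length - (2 * Mx * (|A| + |B| + 1) + 2 * W.length) ≤ (occ W U : ℝ) ∧
      (occ W U : ℝ) ≤ B * U.length + (2 * Mx * (|A| + |B| + 1) + 2 * W.length) := by
    intro h
    have h1 : (U.length : ℝ) ≤ Mx := by exact_mod_cast h
    have h2 : ((occ W U : ℕ) : ℝ) ≤ U.length := by exact_mod_cast ue1_occ_le W U
    have h3 : (0 : ℝ) ≤ occ W U := Nat.cast_nonneg _
    have h4 : (0 : ℝ) ≤ U.length := Nat.cast_nonneg _
    constructor
    · nlinarith [mul_le_mul hA2 h1 h4 hA3, mul_nonneg hMx0 hA3, mul_nonneg hMx0 hB3]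
    · nlinarith [mul_le_mul_of_nonneg_right hB1 h4, mul_le_mul_of_nonneg_left h1 hB3,
        mul_nonneg hMx0 hA3, mul_nonneg hMx0 hB3]
  obtain ⟨n, a, hU⟩ := hU
  by_cases hn : N ≤ n
  · obtain ⟨m, rfl⟩ : ∃ m, n = m + N := ⟨n - N, by omega⟩
    rw [T_add] at hU
    rcases inf_flatMap (T σ N) (T σ m a) U hU with
      (h1 | ⟨c', _, h1⟩) | ⟨s, v', p, e, ⟨c', _, h2⟩, _, h4⟩
    · exact short (by subst h1; simp)
    · exact short (h1.length_le.trans (hM c'))
    · have h5 : s.length ≤ Mx := h2.length_le.trans (hM c')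
      have h6 : p.length ≤ Mx := by
        rcases h4 with rfl | ⟨c'', _, h4⟩
        · simp
        · exact h4.length_le.trans (hM c'')
      obtain ⟨h7, h8⟩ := ue1_flat W (T σ N) A B hA hB v'
      obtain ⟨g1, g2⟩ := ue1_append W s (v'.flatMap (T σ N) ++ p)
      obtain ⟨g3, g4⟩ := ue1_append W (v'.flatMap (T σ N)) p
      have g5 := ue1_occ_le W s
      have g6 := ue1_occ_le W p
      have lU : U.length = s.length + (v'.flatMap (T σ N)).length + p.length := by
        rw [e]; simp only [List.length_append]; omega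
      rw [← e] at g1 g2
      have k1 : ((occ W (v'.flatMap (T σ N)) : ℕ) : ℝ) ≤ occ W U := by
        exact_mod_cast (by omega : occ W (v'.flatMap (T σ N)) ≤ occ W U)
      have k2 : ((occ W U : ℕ) : ℝ) ≤ occ W (v'.flatMap (T σ N)) + 2 * Mx + 2 * W.length := by
        exact_mod_cast (by omega :
          occ W U ≤ occ W (v'.flatMap (T σ N)) + 2 * Mx + 2 * W.length)
      have lU' : (U.length : ℝ) = s.length + (v'.flatMap (T σ N)).length + p.length := by
        exact_mod_cast lU
      have h5' : (s.length : ℝ) ≤ Mx := by exact_mod_cast h5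
      have h6' : (p.length : ℝ) ≤ Mx := by exact_mod_cast h6
      have h9 : (0 : ℝ) ≤ (s.length : ℝ) + p.length := by positivity
      have h10 : (s.length : ℝ) + p.length ≤ 2 * Mx := by linarith
      rw [lU']
      constructor
      · have : A * ((s.length : ℝ) + p.length) ≤ |A| * (2 * Mx) :=
          mul_le_mul hA2 h10 h9 hA3
        nlinarith [mul_nonneg hMx0 hA3, mul_nonneg hMx0 hB3]
      · have : -(|B| * (2 * Mx)) ≤ B * ((s.length : ℝ) + p.length) := by
          have q1 := mul_le_mul_of_nonneg_right hB1 h9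
          have q2 := mul_le_mul_of_nonneg_left h10 hB3
          linarith
        nlinarith [mul_nonneg hMx0 hA3, mul_nonneg hMx0 hB3]
  · exact short (hU.length_le.trans ((len_mono hσ n N (by omega) a).trans (hM a)))

open Classical in
/-- occurrences in a window -/
theorem ue1_win (W : List (Fin d)) (x : ℤ → Fin d) (m : ℕ) :
    occ W (win x 0 m) ≤ ∑ i ∈ range m, (if win x i W.length = W then 1 else 0) ∧
      ∑ i ∈ range m, (if win x i W.length = W then 1 else 0) ≤
        occ W (win x 0 m) + W.length := by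
  have key : ∀ i, i + W.length ≤ m →
      ((W <+: (win x 0 m).drop i) ↔ win x i W.length = W) := by
    intro i hi
    have h := win_drop_take x 0 m i W.length hi
    rw [zero_add] at h
    rw [← h, List.prefix_iff_eq_take]
    exact eq_comm
  constructor
  · rw [ue1_occ_sum, win_length]
    refine sum_le_sum fun i hi => ?_
    by_cases h : W <+: (win x 0 m).drop i
    · have h1 := h.length_le
      rw [List.length_drop, win_length] at h1
      rw [mem_range] at hi
      have h2 : i + W.length ≤ m := by omega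
      rw [if_pos h, if_pos ((key i h2).1 h)]
    · rw [if_neg h]; exact Nat.zero_le _
  · refine le_trans ?_ (Nat.add_le_add_left (ue1_card m W.length) _)
    rw [ue1_occ_sum, win_length, ← sum_add_distrib]
    refine sum_le_sum fun i hi => ?_
    by_cases h : win x i W.length = W
    · by_cases h' : m < i + W.length
      · rw [if_pos h, if_pos h']; exact Nat.le_add_left _ _
      · rw [if_pos h, if_pos ((key i (by omega)).2 h)]; exact Nat.le_add_right _ _
    · rw [if_neg h]; exact Nat.zero_le _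

theorem ue1_meas (W : List (Fin d)) : MeasurableSet {x : ℤ → Fin d | win x 0 W.length = W} := by
  have h1 : Measurable (fun x : ℤ → Fin d => fun j : Fin W.length => x (0 + ((j : ℕ) : ℤ))) :=
    measurable_pi_lambda _ fun j => measurable_pi_apply _
  have h2 : MeasurableSet {q : Fin W.length → Fin d | List.ofFn q = W} :=
    (Set.toFinite _).measurableSet
  exact h1 h2

theorem ue1_shift (x : ℤ → Fin d) (i n : ℕ) : win (sh^[i] x) 0 n = win x i n := by
  rw [← ofFn_sh]
  simp [win]

theorem ue1_int {μ : Measure (ℤ → Fin d)} [IsProbabilityMeasure μ]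
    (hμ : MeasurePreserving (sh (d := d)) μ μ) (W : List (Fin d)) (m : ℕ) (a b : ℝ)
    (h : ∀ᵐ x ∂μ, a ≤ ((occ W (win x 0 m) : ℕ) : ℝ) ∧ ((occ W (win x 0 m) : ℕ) : ℝ) ≤ b) :
    a ≤ m * μ.real {x | win x 0 W.length = W} ∧
      m * μ.real {x | win x 0 W.length = W} ≤ b + W.length := by
  classical
  have hE := ue1_meas W
  set E := {x : ℤ → Fin d | win x 0 W.length = W} with hEd
  have hI : ∀ i : ℕ, MeasurableSet ((sh (d := d))^[i] ⁻¹' E) := fun i =>
    (hμ.iterate i).measurable hE
  have hint : ∀ i : ℕ, Integrable (((sh (d := d))^[i] ⁻¹' E).indicator (fun _ => (1 : ℝ))) μ :=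
    fun i => (integrable_const 1).indicator (hI i)
  have hval : ∀ i : ℕ, ∫ x, ((sh (d := d))^[i] ⁻¹' E).indicator (fun _ => (1 : ℝ)) x ∂μ =
      μ.real E := by
    intro i
    rw [integral_indicator (hI i), setIntegral_const, smul_eq_mul, mul_one, measureReal_def,
      (hμ.iterate i).measure_preimage hE.nullMeasurableSet, measureReal_def]
  have hS : ∫ x, ∑ i ∈ range m, ((sh (d := d))^[i] ⁻¹' E).indicator (fun _ => (1 : ℝ)) x ∂μ =
      m * μ.real E := by
    rw [integral_finsetSum _ fun i _ => hint i, sum_congr rfl fun i _ => hval i, sum_const,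
      card_range, nsmul_eq_mul]
  have hSint : Integrable (fun x => ∑ i ∈ range m,
      ((sh (d := d))^[i] ⁻¹' E).indicator (fun _ => (1 : ℝ)) x) μ :=
    integrable_finsetSum _ fun i _ => hint i
  have hpt : ∀ x, ∑ i ∈ range m, ((sh (d := d))^[i] ⁻¹' E).indicator (fun _ => (1 : ℝ)) x =
      ((∑ i ∈ range m, (if win x i W.length = W then 1 else 0) : ℕ) : ℝ) := by
    intro x
    rw [Nat.cast_sum]
    refine sum_congr rfl fun i _ => ?_
    rw [Set.indicator_apply]
    have : (x ∈ (sh (d := d))^[i] ⁻¹' E) ↔ win x i W.length = W := by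
      rw [Set.mem_preimage, hEd, Set.mem_ofPred_eq, ue1_shift]
    by_cases h : win x i W.length = W
    · rw [if_pos (this.2 h), if_pos h]; simp
    · rw [if_neg (fun h' => h (this.1 h')), if_neg h]; simp
  constructor
  · have h1 : ∫ _, a ∂μ ≤ ∫ x, ∑ i ∈ range m,
        ((sh (d := d))^[i] ⁻¹' E).indicator (fun _ => (1 : ℝ)) x ∂μ := by
      refine integral_mono_ae (integrable_const _) hSint ?_
      filter_upwards [h] with x hx
      rw [hpt x]
      refine hx.1.trans ?_
      exact_mod_cast (ue1_win W x m).1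
    rw [hS] at h1
    simpa using h1
  · have h1 : ∫ x, ∑ i ∈ range m, ((sh (d := d))^[i] ⁻¹' E).indicator (fun _ => (1 : ℝ)) x ∂μ ≤
        ∫ _, (b + W.length) ∂μ := by
      refine integral_mono_ae hSint (integrable_const _) ?_
      filter_upwards [h] with x hx
      rw [hpt x]
      have h2 : ((∑ i ∈ range m, (if win x i W.length = W then 1 else 0) : ℕ) : ℝ) ≤
          (occ W (win x 0 m) : ℝ) + W.length := by
        exact_mod_cast (ue1_win W x m).2
      linarith [hx.2]
    rw [hS] at h1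
    simpa using h1

theorem ue1_le_of_mul {p q C : ℝ} (h : ∀ m : ℕ, (m : ℝ) * p ≤ m * q + C) : p ≤ q := by
  by_contra hc
  push Not at hc
  obtain ⟨m, hm⟩ := exists_nat_gt (C / (p - q))
  have h1 := h m
  rw [div_lt_iff₀ (by linarith)] at hm
  nlinarith

/-- bounds for the measure of a cylinder from bounds of the frequencies in the tiles -/
theorem ue1_meas_bd {σ : Fin d → List (Fin d)} {M : Matrix (Fin d) (Fin d) ℤ} {θ : ℝ}
    {X : Set (ℤ → Fin d)} (hS : Sys σ M θ X)
    {μ : Measure (ℤ → Fin d)} [IsProbabilityMeasure μ] (hX : μ Xᶜ = 0)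
    (hμ : MeasurePreserving (sh (d := d)) μ μ) (W : List (Fin d)) (N : ℕ) (A B : ℝ)
    (hA : ∀ c, A * ((T σ N c).length : ℝ) ≤ (occ W (T σ N c) : ℝ))
    (hB : ∀ c, (occ W (T σ N c) : ℝ) + W.length ≤ B * ((T σ N c).length : ℝ)) :
    A ≤ μ.real {x | win x 0 W.length = W} ∧ μ.real {x | win x 0 W.length = W} ≤ B := by
  obtain ⟨Mx, hM⟩ : ∃ Mx : ℕ, ∀ c, (T σ N c).length ≤ Mx :=
    ⟨∑ c, (T σ N c).length, fun c =>
      single_le_sum (f := fun c => (T σ N c).length) (fun _ _ => Nat.zero_le _) (mem_univ c)⟩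
  set C := (2 * (Mx : ℝ) * (|A| + |B| + 1) + 2 * W.length) with hC
  have key : ∀ m : ℕ, A * m - C ≤ m * μ.real {x | win x 0 W.length = W} ∧
      m * μ.real {x | win x 0 W.length = W} ≤ (B * m + C) + W.length := by
    intro m
    refine ue1_int hμ W m _ _ ?_
    have hae : ∀ᵐ x ∂μ, x ∈ X := by
      rw [ae_iff]
      exact hX
    filter_upwards [hae] with x hx
    have h := ue1_word hS.ne W N Mx hM A B hA hB (win x 0 m) (hS.word hx 0 m)
    rw [win_length] at h
    exact h
  constructor
  · refine ue1_le_of_mul (C := C) fun m => ?_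
    have := (key m).1
    nlinarith
  · refine ue1_le_of_mul (C := C + W.length) fun m => ?_
    have := (key m).2
    nlinarith

section asym
variable {σ : Fin d → List (Fin d)} {M : Matrix (Fin d) (Fin d) ℤ} {θ : ℝ} {L f : Fin d → ℝ}

theorem ue1_cnt (h : PFD σ M θ L f) (c e : Fin d) :
    Tendsto (fun n : ℕ => (((T σ n c).count e : ℕ) : ℝ) / θ ^ n) atTop (𝓝 (f e * L c)) := by
  refine (h.lim c e).congr fun n => ?_
  rw [← count_T h.cntM n c e]
  norm_cast

theorem ue1_len_sum (V : List (Fin d)) : ∑ e, V.count e = V.length := by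
  rw [← List.sum_toFinset_count_eq_length]
  symm
  apply sum_subset (subset_univ _)
  intro x _ hx
  rw [List.count_eq_zero]
  simpa using hx

theorem ue1_len (h : PFD σ M θ L f) (c : Fin d) :
    Tendsto (fun n : ℕ => ((T σ n c).length : ℝ) / θ ^ n) atTop (𝓝 (L c)) := by
  have h1 : Tendsto (fun n : ℕ => ∑ e, (((T σ n c).count e : ℕ) : ℝ) / θ ^ n) atTop
      (𝓝 (∑ e, f e * L c)) := tendsto_finsetSum _ fun e _ => ue1_cnt h c e
  rw [← sum_mul, h.fsum, one_mul] at h1
  refine h1.congr fun n => ?_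
  rw [← sum_div, ← Nat.cast_sum, ue1_len_sum]

theorem ue1_len_top (h : PFD σ M θ L f) (c : Fin d) :
    Tendsto (fun n : ℕ => ((T σ n c).length : ℝ)) atTop atTop := by
  have h1 := (ue1_len h c)
  have h2 : Tendsto (fun n : ℕ => θ ^ n) atTop atTop := tendsto_pow_atTop_atTop_of_one_lt h.one_lt
  have h3 := h1.pos_mul_atTop (h.Lpos c) h2
  refine h3.congr fun n => ?_
  have : (0 : ℝ) < θ ^ n := pow_pos (by linarith [h.one_lt]) n
  field_simp

theorem ue1_asym (h : PFD σ M θ L f) (W : List (Fin d)) (k : ℕ) (δ : ℝ) (hδ : 0 < δ)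
    (c : Fin d) : ∀ᶠ N : ℕ in atTop,
      ((∑ e, f e * occ W (T σ k e)) / θ ^ k - δ) * ((T σ N c).length : ℝ) ≤
        (occ W (T σ N c) : ℝ) ∧
      (occ W (T σ N c) : ℝ) ≤
        ((∑ e, f e * occ W (T σ k e)) / θ ^ k + W.length / θ ^ k + δ) *
          ((T σ N c).length : ℝ) := by
  have hθ : (0 : ℝ) < θ := by linarith [h.one_lt]
  have hθk : (0 : ℝ) < θ ^ k := pow_pos hθ k
  have hLc := h.Lpos c
  -- denominators
  have hd : Tendsto (fun n : ℕ => ((T σ (n + k) c).length : ℝ) / θ ^ n) atTop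
      (𝓝 (θ ^ k * L c)) := by
    have h1 := ((tendsto_add_atTop_iff_nat k).2 (ue1_len h c)).const_mul (θ ^ k)
    refine h1.congr fun n => ?_
    have : (0 : ℝ) < θ ^ n := pow_pos hθ n
    rw [pow_add]
    field_simp
  have hn1 : Tendsto (fun n : ℕ => ∑ e, (((T σ n c).count e : ℕ) : ℝ) / θ ^ n *
      occ W (T σ k e)) atTop (𝓝 (∑ e, f e * L c * occ W (T σ k e))) :=
    tendsto_finsetSum _ fun e _ => (ue1_cnt h c e).mul_const _
  have hlo : Tendsto (fun n : ℕ => ((∑ e, (T σ n c).count e * occ W (T σ k e) : ℕ) : ℝ) /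
      ((T σ (n + k) c).length : ℝ)) atTop (𝓝 ((∑ e, f e * occ W (T σ k e)) / θ ^ k)) := by
    have h1 := hn1.div hd (by positivity)
    have e1 : (∑ e, f e * L c * occ W (T σ k e)) / (θ ^ k * L c) =
        (∑ e, f e * occ W (T σ k e)) / θ ^ k := by
      have : ∑ e, f e * L c * occ W (T σ k e) = (∑ e, f e * occ W (T σ k e)) * L c := by
        rw [sum_mul]; exact sum_congr rfl fun e _ => by ring
      rw [this]
      field_simp
    rw [e1] at h1
    refine h1.congr fun n => ?_
    have hp : (0 : ℝ) < θ ^ n := pow_pos hθ n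
    simp only [Pi.div_apply]
    have : ∑ e, (((T σ n c).count e : ℕ) : ℝ) / θ ^ n * occ W (T σ k e) =
        ((∑ e, (T σ n c).count e * occ W (T σ k e) : ℕ) : ℝ) / θ ^ n := by
      push_cast
      rw [sum_div]; exact sum_congr rfl fun e _ => by ring
    rw [this, div_div_div_cancel_right₀ hp.ne']
  have hup : Tendsto (fun n : ℕ => ((∑ e, (T σ n c).count e * occ W (T σ k e) : ℕ) : ℝ) /
      ((T σ (n + k) c).length : ℝ) + W.length * ((T σ n c).length : ℝ) /
        ((T σ (n + k) c).length : ℝ)) atTop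
        (𝓝 ((∑ e, f e * occ W (T σ k e)) / θ ^ k + W.length / θ ^ k)) := by
    refine hlo.add ?_
    have h1 := ((ue1_len h c).const_mul (W.length : ℝ)).div hd (by positivity)
    have e1 : (W.length : ℝ) * L c / (θ ^ k * L c) = W.length / θ ^ k := by field_simp
    rw [e1] at h1
    refine h1.congr fun n => ?_
    have hp : (0 : ℝ) < θ ^ n := pow_pos hθ n
    simp only [Pi.div_apply]
    rw [← mul_div_assoc, div_div_div_cancel_right₀ hp.ne']
  have hl1 := hlo.eventually_const_lt (show (∑ e, f e * occ W (T σ k e)) / θ ^ k - δ <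
    (∑ e, f e * occ W (T σ k e)) / θ ^ k by linarith)
  have hu1 := hup.eventually_lt_const (show (∑ e, f e * occ W (T σ k e)) / θ ^ k +
    W.length / θ ^ k < (∑ e, f e * occ W (T σ k e)) / θ ^ k + W.length / θ ^ k + δ by linarith)
  obtain ⟨n0, hn0⟩ := eventually_atTop.1 (hl1.and hu1)
  refine eventually_atTop.2 ⟨n0 + k, fun N hN => ?_⟩
  obtain ⟨n, rfl⟩ : ∃ n, N = n + k := ⟨N - k, by omega⟩
  obtain ⟨g1, g2⟩ := hn0 n (by omega)
  have hpos : (0 : ℝ) < ((T σ (n + k) c).length : ℝ) := by
    have h1 : 0 < (T σ (n + k) c).length := by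
      have := len_mono h.ne 0 (n + k) (Nat.zero_le _) c
      rw [T_zero, List.length_singleton] at this
      omega
    exact_mod_cast h1
  obtain ⟨q1, q2⟩ := ue1_flat_sum W (T σ k) (T σ n c)
  rw [← T_add] at q1 q2
  have q1' : ((∑ e, (T σ n c).count e * occ W (T σ k e) : ℕ) : ℝ) ≤ occ W (T σ (n + k) c) := by
    exact_mod_cast q1
  have q2' : ((occ W (T σ (n + k) c) : ℕ) : ℝ) ≤
      ((∑ e, (T σ n c).count e * occ W (T σ k e) : ℕ) : ℝ) +
        W.length * ((T σ n c).length : ℝ) := by
    exact_mod_cast q2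
  rw [lt_div_iff₀ hpos] at g1
  rw [← add_div, div_lt_iff₀ hpos] at g2
  constructor
  · linarith
  · linarith

end asym

theorem st_UE1 : ST_UE1 := by
  intro d σ M θ X L f hS h μ hprob hX hμ W a
  have hθ : (0 : ℝ) < θ := by linarith [h.one_lt]
  rw [Metric.tendsto_atTop']
  intro ε hε
  obtain ⟨k, hk⟩ : ∃ k : ℕ, (W.length : ℝ) / θ ^ k < ε / 4 := by
    have h1 : Tendsto (fun k : ℕ => (W.length : ℝ) / θ ^ k) atTop (𝓝 0) :=
      tendsto_const_nhds.div_atTop (tendsto_pow_atTop_atTop_of_one_lt h.one_lt)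
    exact (h1.eventually_lt_const (by linarith : (0 : ℝ) < ε / 4)).exists
  set F := (∑ e, f e * occ W (T σ k e)) / θ ^ k with hF
  have hall : ∀ᶠ N : ℕ in atTop, ∀ c,
      (F - ε / 8) * ((T σ N c).length : ℝ) ≤ (occ W (T σ N c) : ℝ) ∧
      (occ W (T σ N c) : ℝ) ≤ (F + W.length / θ ^ k + ε / 8) * ((T σ N c).length : ℝ) :=
    eventually_all.2 fun c => ue1_asym h W k (ε / 8) (by linarith) c
  have hlen : ∀ᶠ N : ℕ in atTop, ∀ c, (W.length : ℝ) ≤ ε / 8 * ((T σ N c).length : ℝ) := by
    refine eventually_all.2 fun c => ?_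
    exact ((ue1_len_top h c).const_mul_atTop (by linarith : (0 : ℝ) < ε / 8)).eventually_ge_atTop _
  obtain ⟨N0, hN0⟩ := eventually_atTop.1 (hall.and hlen)
  refine ⟨N0, fun N hN => ?_⟩
  obtain ⟨g1, g2⟩ := hN0 N hN.le
  obtain ⟨p1, p2⟩ := ue1_meas_bd hS hX hμ W N (F - ε / 8) (F + W.length / θ ^ k + ε / 4)
    (fun c => (g1 c).1) (fun c => by
      have h1 := (g1 c).2
      have h2 := g2 c
      have : (F + W.length / θ ^ k + ε / 4) * ((T σ N c).length : ℝ) =
        (F + W.length / θ ^ k + ε / 8) * ((T σ N c).length : ℝ) +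
          ε / 8 * ((T σ N c).length : ℝ) := by ring
      rw [this]
      linarith)
  have hpos : (0 : ℝ) < ((T σ N a).length : ℝ) := by
    have h1 : 0 < (T σ N a).length := by
      have := len_mono h.ne 0 N (Nat.zero_le _) a
      rw [T_zero, List.length_singleton] at this
      omega
    exact_mod_cast h1
  have r1 : F - ε / 8 ≤ (occ W (T σ N a) : ℝ) / ((T σ N a).length : ℝ) := by
    rw [le_div_iff₀ hpos]; exact (g1 a).1
  have r2 : (occ W (T σ N a) : ℝ) / ((T σ N a).length : ℝ) ≤ F + W.length / θ ^ k + ε / 8 := by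
    rw [div_le_iff₀ hpos]; exact (g1 a).2
  rw [Real.dist_eq, abs_lt]
  constructor <;> linarith

end Pool.Agent.Helper97.FS
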